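import Pool.Agent.H72.EM.Basic

/-!
# emc_modules, GN: the class of the graph of a dart involution (helper5)
-/

set_option autoImplicit false

open Finset

namespace Pool.Agent.H5.EMC

open Pool.Agent.H72.EM

section

variable {V : Type} {N : ℕ} {τ : Dt V → Dt V} (e : V ≃ Fin N) (h : IsPG τ)

theorem adj_iff (a b : Fin N) :
    (gph τ e h).Adj a b ↔ ∃ p, (τ (e.symm a, p)).1 = e.symm b := Iff.rfl

theorem adj_dart (x : Dt V) : (gph τ e h).Adj (e x.1) (e (τ x).1) := by
  rw [adj_iff]
  refine ⟨x.2, ?_⟩
  rw [Equiv.symm_apply_apply, Equiv.symm_apply_apply]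

/-- the edge of a dart -/
def edg (x : Dt V) : (gph τ e h).edgeSet := ⟨s(e x.1, e (τ x).1), adj_dart e h x⟩

theorem edg_tau (x : Dt V) : edg e h (τ x) = edg e h x := by
  apply Subtype.ext
  change s(e (τ x).1, e (τ (τ x)).1) = s(e x.1, e (τ x).1)
  rw [h.inv x, Sym2.eq_swap]

theorem edg_surj (y : (gph τ e h).edgeSet) (v : Fin N) (hv : v ∈ y.1) :
    ∃ p, edg e h (e.symm v, p) = y := by
  obtain ⟨y, hy⟩ := y
  obtain ⟨w, rfl⟩ := Sym2.mem_iff_exists.1 hv
  rw [SimpleGraph.mem_edgeSet, adj_iff] at hy
  obtain ⟨p, hp⟩ := hy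
  refine ⟨p, ?_⟩
  apply Subtype.ext
  change s(e (e.symm v), e (τ (e.symm v, p)).1) = s(v, w)
  rw [hp, Equiv.apply_symm_apply, Equiv.apply_symm_apply]

theorem edg_surj' (y : (gph τ e h).edgeSet) : ∃ x : Dt V, edg e h x = y := by
  obtain ⟨v, hv⟩ : ∃ v, v ∈ y.1 := by
    obtain ⟨a, b, hab⟩ : ∃ a b, y.1 = s(a, b) := ⟨y.1.out.1, y.1.out.2, (Quot.out_eq y.1).symm⟩
    exact ⟨a, by rw [hab]; exact Sym2.mem_mk_left a b⟩
  obtain ⟨p, hp⟩ := edg_surj e h y v hv
  exact ⟨_, hp⟩

/-- two darts with the same edge -/
theorem edg_inj (x x' : Dt V) (hx : edg e h x = edg e h x') : x' = x ∨ x' = τ x := by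
  have h1 : s(e x.1, e (τ x).1) = s(e x'.1, e (τ x').1) := congrArg Subtype.val hx
  rw [Sym2.eq_iff] at h1
  rcases h1 with ⟨h2, h3⟩ | ⟨h2, h3⟩
  · left
    have h4 := e.injective h2
    have h5 := e.injective h3
    obtain ⟨v, a⟩ := x
    obtain ⟨v', a'⟩ := x'
    simp only at h4
    subst h4
    rw [h.inj _ _ _ h5]
  · right
    have h4 := e.injective h2
    have h5 := e.injective h3
    have h6 := h.inv x
    generalize hz : τ x = z at h5 h6
    obtain ⟨v, a⟩ := z
    obtain ⟨v', a'⟩ := x'
    simp only at h5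
    subst h5
    have h7 : (τ (v, a)).1 = (τ (v, a')).1 := by rw [h6, h4]
    rw [h.inj _ _ _ h7]

theorem edg_port (v : V) (a b : Fin 3) (hx : edg e h (v, a) = edg e h (v, b)) : a = b := by
  rcases edg_inj e h _ _ hx with h1 | h1
  · exact (congrArg Prod.snd h1).symm
  · exact absurd (congrArg Prod.fst h1).symm (h.ne (v, a))

end

theorem pf_GN : T_GN := by
  classical
  intro V _ _ N e' t τ e h col hcol hCn ht hcard
  refine ⟨?_, ?_, t, ht, ?_⟩
  · intro v
    have h1 : (gph τ e h).neighborSet v = Set.range fun p : Fin 3 => e (τ (e.symm v, p)).1 := by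
      ext w
      rw [SimpleGraph.mem_neighborSet, adj_iff, Set.mem_range]
      constructor
      · rintro ⟨p, hp⟩
        exact ⟨p, by rw [hp, Equiv.apply_symm_apply]⟩
      · rintro ⟨p, hp⟩
        exact ⟨p, by rw [← hp, Equiv.symm_apply_apply]⟩
    rw [h1, ← Set.image_univ, Set.ncard_image_of_injective, Set.ncard_univ, Nat.card_eq_fintype_card,
      Fintype.card_fin]
    intro a b hab
    exact h.inj _ _ _ (e.injective hab)
  · choose D hD using edg_surj' e h
    have hf : ∀ x : Dt V, col (D (edg e h x)) = col x := by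
      intro x
      rcases edg_inj e h x (D (edg e h x)) (hD _).symm with h1 | h1
      · rw [h1]
      · rw [h1, hcol.inv]
    refine ⟨fun y => col (D y), ?_, ?_⟩
    · rintro x y hxy ⟨v, hvx, hvy⟩ hc
      obtain ⟨a, ha⟩ := edg_surj e h x v hvx
      obtain ⟨b, hb⟩ := edg_surj e h y v hvy
      rw [← ha, ← hb] at hc hxy
      simp only at hc
      rw [hf, hf] at hc
      exact hxy (by rw [hcol.inj _ _ _ hc])
    · intro d
      have hne : Nonempty (Fin N) := ⟨e (Classical.arbitrary V)⟩
      refine ⟨?_⟩
      intro a b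
      have key : ∀ v w, Relation.ReflTransGen (stp τ col d) v w →
          (twoClasses (gph τ e h) (fun y => col (D y)) d).Reachable (e v) (e w) := by
        intro v w hvw
        induction hvw with
        | refl => exact SimpleGraph.Reachable.refl _
        | tail _ hs ih =>
          rename_i w1 w2 _
          refine ih.trans (SimpleGraph.Adj.reachable ?_)
          obtain ⟨p, hp1, hp2⟩ := hs
          unfold twoClasses
          rw [SimpleGraph.fromEdgeSet_adj]
          have hmem := (edg e h (w1, p)).2
          have hed : (edg e h (w1, p)).1 = s(e w1, e w2) := by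
            change s(e w1, e (τ (w1, p)).1) = s(e w1, e w2)
            rw [hp2]
          refine ⟨?_, ?_⟩
          · rw [← hed]
            refine ⟨hmem, ?_⟩
            have h2 := hf (w1, p)
            change col (D (edg e h (w1, p))) ≠ d
            rw [h2]
            exact hp1
          · intro hc
            have h3 := h.ne (w1, p)
            rw [hp2] at h3
            exact h3 (e.injective hc).symm
      have h4 := key (e.symm a) (e.symm b) (hCn d _ _)
      rwa [Equiv.apply_symm_apply, Equiv.apply_symm_apply] at h4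
  · have hle : Nat.card {f : (gph τ e h).edgeSet → Fin 3 // IsProper (gph τ e h) f} ≤
        Nat.card {f : Dt V → Fin 3 // IsCol τ f} := by
      have hF : ∀ g : {f : (gph τ e h).edgeSet → Fin 3 // IsProper (gph τ e h) f},
          IsCol τ (fun x => g.1 (edg e h x)) := by
        rintro ⟨g, hg⟩
        refine ⟨?_, ?_⟩
        · intro x
          simp only
          rw [edg_tau]
        · intro v a b hab
          simp only at hab
          by_contra hne
          refine hg (edg e h (v, a)) (edg e h (v, b)) ?_ ⟨e v, ?_, ?_⟩ hab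
          · intro hc
            exact hne (edg_port e h v a b hc)
          · exact Sym2.mem_mk_left _ _
          · exact Sym2.mem_mk_left _ _
      refine Nat.card_le_card_of_injective (fun g => (⟨_, hF g⟩ : {f : Dt V → Fin 3 // IsCol τ f})) ?_
      intro g g' hgg
      apply Subtype.ext
      funext y
      obtain ⟨x, rfl⟩ := edg_surj' e h y
      exact congrFun (congrArg Subtype.val hgg) x
    omega

end Pool.Agent.H5.EMC
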